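import Mathlib
import Pool.Agent.H14.LK.Bun
import Pool.Agent.H14.LK.Det
import Pool.Agent.H14.LK.Up

/-!
# Nef divisors on manifolds with trivial canonical class: the exponents grow exponentially

We consider the projective manifolds `X = V / Γ` with `K_X ∼ 0` and `H^1(X, O_X) = 0` which are quotients
of abelian varieties by finite groups which act freely. All nef line bundles on these manifolds are
semiample, and it is known (in our library) that for every dimension `d` there is an exponent `N` such
that `L ^ N` is base point free for all these `X` of dimension `d` and all nef `L`. How large must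
`N` be, and how large can the index of one `L` be?

**Theorem.** (1) For all positive integers `q_1, …, q_r` with least common multiple `m` there are such
a manifold `X`, of dimension `5 + ∑ (q_i - 1)`, and a nef line bundle `L` on `X` which is not
numerically trivial, such that `L ^ k` is base point free if `m` divides `k`, and `L ^ k` has no
nonzero section if `m` does not divide `k`. In particular every `m` is the index of a nef line bundle
in dimension `m + 4`.

(2) If `N` is an exponent such that `L ^ N` has a nonzero section for all these `X` of dimension at most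
`d` and all nef `L` which are not numerically trivial, then `N` is divisible by all `m` with
`m ≤ d - 4`; if `N ≥ 1` then `N ≥ 2 ^ ⌊(d - 4) / 2⌋` (for `d ≥ 4`).

(3) For every `n` there are `X` of dimension `2 n ^ 2 - n + 5` and `L` as in (1) with index at least
`2 ^ n`. So the index of a single line bundle in dimension `d` may be as large as `2 ^ (c √d)`, with
`c` near `1 / √2`.

(4) The prime divisors of the index of a line bundle `L` as in (1) on a manifold of dimension `d` are at
most `2 d + 1`. (By (1), all primes `p ≤ d - 4` are the index of some `L` in dimension at most `d`, so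
the size of the greatest prime which occurs is linear in the dimension.)

So no exponent which is polynomial in the dimension makes the nef line bundles on manifolds with
trivial canonical class and `H^1(X, O_X) = 0` effective, or base point free. Known before (library,
`EveryIndex`): dimension at most `m ^ 5` instead of `m + 4`, which gives only `m ∣ N` for
`m ^ 5 ≤ d`; and (library, `TorusQuotients`, used for (4)) `L ^ (4 |G| ^ 5)` is base point free, `G` the
group of the linear parts of `Γ`.

**Proof.** Let `E = ℂ / ℤ[i]`, and for every `i` let `T_i` be the quotient of `E ^ (q_i)` by the diagonal,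
of dimension `q_i - 1`. The dihedral group of order `2 q_i` acts on `T_i` by permutations of the
coordinates, and the sum of the coordinates defines a homomorphism from
`π_1 (T_i) = ℤ[i] ^ (q_i) / ℤ[i]` onto `ℤ[i] / q_i`, which is invariant under the permutations; it gives
a torsion line bundle of order `q_i` on `T_i`. Let `m` be the least common multiple. The group of the
transformations `(x, y, z) ↦ (± x + s, ± y + t, ± z + u)` of Hantzsche and Wendt (with holonomy
`(ℤ / 2) ^ 2`), enlarged by the translation by `1 / m` of `x`, acts freely on `ℂ ^ 3`, and it has the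
dihedral group of order `2 m` as a quotient, by its action on `x` modulo the imaginary translations.
So it acts on `T = ∏ T_i` by permutations, with the sign `δ` as determinant, and `X` is the bundle with
fibres `E × E × T` over the quotient of `E ^ 3`, where the group acts on the two factors `E` by `δ e_2`
and `e_2`, `e_2` the sign at `y`. All linear parts have determinant `1` and there are no
common invariants. `L` is the product of the pull-back of an ample line bundle under
`X → ℙ^1 = E / ± 1` (the coordinate `x`) and of the torsion line bundle of order `m` given by the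
characters of `T`. Its powers whose exponents are not divisible by `m` are nontrivial torsion bundles
on the fibres, so they have no sections.

(4) An index divides `4 |G| ^ 5`. `G` acts faithfully on a lattice of rank `2 d`, and the
characteristic polynomial of an integral matrix of prime order `p` is divisible by the cyclotomic
polynomial of degree `p - 1`.

`IsTorusQuotient`, `LineBundle`, `LineBundle.pow`, `LineBundle.IsSection` and `LineBundle.IsTrivial`
are defined in `Pool.Agent.W594.SYZ2` (library), `IsHermitian`, `IsChernForm`, `IsNefForm` and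
`IsPositiveForm` in the same namespace; `HOneZero` in `Pool.Agent.TH735.AQ`; `BasePointFree` in
`Q36.EF`. A line bundle with Chern form `H` is numerically trivial if and only if `H = 0`.
-/

set_option autoImplicit false

namespace Pool.Agent.Results.MP_5ee2d0_ag.LinearIndex

open Module
open Pool.Agent.W594.SYZ2 Pool.Agent.TH735.AQ
open Q36.EF (BasePointFree)

/-- The line bundle is the canonical bundle of `X = V / Γ`: `f(v) dv_1 ⋯ dv_d` is invariant under `Γ`
if and only if `f` transforms as a section. -/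
def IsCanonical {V : Type} [NormedAddCommGroup V] [NormedSpace ℂ V]
    {Γ : Subgroup (V ≃ᵃ[ℂ] V)} (K : LineBundle Γ) : Prop :=
  ∀ (γ : Γ) (v : V), K.e γ v * LinearMap.det ((γ : V ≃ᵃ[ℂ] V).linear : V →ₗ[ℂ] V) = 1

/-- `X = V / Γ` is a projective manifold with `K_X ∼ 0` and `H^1(X, O_X) = 0`: `X` is the quotient of
a complex torus by a finite group which acts freely, there is a line bundle with a positive definite
Chern form (an ample line bundle) on `X`, and the canonical bundle is trivial. -/
structure IsCYQuotient {V : Type} [NormedAddCommGroup V] [NormedSpace ℂ V]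
    (Γ : Subgroup (V ≃ᵃ[ℂ] V)) : Prop where
  torus : IsTorusQuotient Γ
  free : ∀ γ ∈ Γ, γ ≠ 1 → ∀ v, γ v ≠ v
  projective : ∃ (A : LineBundle Γ) (HA : V → V → ℂ), IsChernForm A HA ∧ IsPositiveForm HA
  canonical : ∃ K : LineBundle Γ, IsCanonical K ∧ K.IsTrivial
  h01 : HOneZero Γ

/-- `X = V / Γ` is a projective manifold with `K_X ∼ 0` and `H^1(X, O_X) = 0`, and `L` is a nef line
bundle on `X`, not numerically trivial, of index `m`: `L ^ k` is base point free if `m` divides `k`,
and has no nonzero section otherwise. -/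
def HasIndex {V : Type} [NormedAddCommGroup V] [NormedSpace ℂ V] {Γ : Subgroup (V ≃ᵃ[ℂ] V)}
    (L : LineBundle Γ) (m : ℕ) : Prop :=
  IsCYQuotient Γ ∧ (∃ H : V → V → ℂ, IsChernForm L H ∧ IsNefForm H ∧ ∃ v w, H v w ≠ 0) ∧
    ∀ k : ℕ, (m ∣ k → BasePointFree (L.pow k)) ∧ (¬ m ∣ k → ∀ s, (L.pow k).IsSection s → s = 0)

open Pool.Agent.H14.LK in
theorem main (r : ℕ) (q : Fin r → ℕ) (n : ℕ)
    (hn : ∀ k, n ∣ k ↔ ∀ i, q i ∣ k) (hn0 : n ≠ 0) :
    ∃ (V : Type) (_ : NormedAddCommGroup V) (_ : NormedSpace ℂ V) (_ : FiniteDimensional ℂ V)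
      (Γ : Subgroup (V ≃ᵃ[ℂ] V)) (L : LineBundle Γ),
      finrank ℂ V = 5 + ∑ i, (q i - 1) ∧ HasIndex L n := by
  obtain ⟨F, hF⟩ : ∃ F : Fam, F = ⟨r, q, n, hn0, (hn n).1 dvd_rfl⟩ := ⟨_, rfl⟩
  have h1 : finrank ℂ (V F) = 5 + ∑ i, (q i - 1) := by
    rw [finrank_V, hF]
  have h2 : ∀ k, n ∣ k ↔ ∀ i, F.q i ∣ k := by
    intro k
    rw [hF]
    exact hn k
  refine ⟨V F, inferInstance, inferInstance, inferInstance, Gam F, LL F 1 false, h1,
    ⟨tq, fun γ hγ hne v hv => hne (free hγ hv), ⟨LL F 0 true, HH true, chern _ _, pos_all⟩,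
      ⟨⟨fun _ _ => 1, fun _ => differentiable_const _, fun _ _ => one_ne_zero,
      fun _ _ _ => (one_mul 1).symm, fun _ _ _ => rfl⟩, fun γ v => ?_, fun _ => 1,
      ⟨differentiable_const _, fun _ _ => (one_mul 1).symm⟩, fun _ => one_ne_zero⟩, hone⟩,
    ⟨HH false, chern _ _, HH_nef _, nonzero⟩,
    fun k => ⟨fun h => bpf_of_dvd ((h2 k).1 h) _, fun h s hs => ?_⟩⟩
  · change (1 : ℂ) * _ = 1
    rw [one_mul]
    exact det_eq γ.2
  · funext y
    by_contra hy
    exact h ((h2 k).2 fun i => dvd_of_section hs hy i)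

/-- The manifolds of dimension at most `d`: the power `L ^ N` of every nef line bundle which is not
numerically trivial has a nonzero section. -/
def Effective (d N : ℕ) : Prop :=
  ∀ (V : Type) [NormedAddCommGroup V] [NormedSpace ℂ V] [FiniteDimensional ℂ V]
    (Γ : Subgroup (V ≃ᵃ[ℂ] V)) (L : LineBundle Γ) (H : V → V → ℂ),
    IsCYQuotient Γ → finrank ℂ V ≤ d → IsChernForm L H → IsNefForm H → (∃ v w, H v w ≠ 0) →
    ∃ s, (L.pow N).IsSection s ∧ s ≠ 0

theorem main_lcm (r : ℕ) (q : Fin r → ℕ) (hq : ∀ i, 1 ≤ q i) :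
    ∃ (V : Type) (_ : NormedAddCommGroup V) (_ : NormedSpace ℂ V) (_ : FiniteDimensional ℂ V)
      (Γ : Subgroup (V ≃ᵃ[ℂ] V)) (L : LineBundle Γ),
      finrank ℂ V = 5 + ∑ i, (q i - 1) ∧ HasIndex L (Finset.univ.lcm q) := by
  refine main r q _ (fun k => ?_) ?_
  · rw [Finset.lcm_dvd_iff]
    exact ⟨fun h i => h i (Finset.mem_univ i), fun h i _ => h i⟩
  · rw [Ne, Finset.lcm_eq_zero_iff]
    rintro ⟨i, -, h⟩
    have := hq i
    omega

theorem dvd {d N : ℕ} (h : Effective d N) {m : ℕ} (hm : 1 ≤ m) (hd : m + 4 ≤ d) : m ∣ N := by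
  obtain ⟨V, i1, i2, i3, Γ, L, h3, h2, ⟨H, h4, h5, h6⟩, h7⟩ :=
    main 1 (fun _ => m) m (fun k => by simp) (by omega)
  have hd' : finrank ℂ V ≤ d := by
    rw [h3, Fin.sum_univ_one]
    omega
  obtain ⟨s, hs, hs0⟩ := h V Γ L H h2 hd' h4 h5 h6
  by_contra hcon
  exact hs0 ((h7 N).2 hcon s hs)

theorem two_pow_le (n : ℕ) : 2 ^ n ≤ n.centralBinom := by
  induction n with
  | zero => simp
  | succ n ih =>
    have h1 := Nat.succ_mul_centralBinom_succ n
    have h2 : (n + 1) * 2 ^ (n + 1) ≤ (n + 1) * (n + 1).centralBinom := by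
      rw [h1, pow_succ]
      nlinarith [Nat.centralBinom_pos n]
    exact Nat.le_of_mul_le_mul_left h2 (Nat.succ_pos n)

/-- a common multiple of `1, …, 2 n` is at least `2 ^ n` -/
theorem two_pow_le_of_dvd {n N : ℕ} (hN : 1 ≤ N) (h : ∀ m, 1 ≤ m → m ≤ 2 * n → m ∣ N) :
    2 ^ n ≤ N := by
  rcases Nat.eq_zero_or_pos n with h0 | h0
  · rw [h0, pow_zero]
    exact hN
  · have h1 : n.centralBinom ∣ N := by
      rw [← Nat.factorization_prime_le_iff_dvd (Nat.centralBinom_ne_zero n) (by omega)]
      intro p hp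
      rw [← hp.pow_dvd_iff_le_factorization (by omega)]
      have h2 : p ^ (n.centralBinom.factorization p) ≤ 2 * n := by
        rw [Nat.centralBinom_eq_two_mul_choose]
        exact Nat.pow_factorization_choose_le (by omega)
      exact h _ (Nat.one_le_pow _ _ hp.pos) h2
    exact (two_pow_le n).trans (Nat.le_of_dvd (by omega) h1)

theorem two_pow_le_of {d N : ℕ} (h : Effective d N) (hN : 1 ≤ N) : 2 ^ ((d - 4) / 2) ≤ N :=
  two_pow_le_of_dvd hN fun m hm hm' => dvd h hm (by omega)

theorem large (n : ℕ) :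
    ∃ (V : Type) (_ : NormedAddCommGroup V) (_ : NormedSpace ℂ V) (_ : FiniteDimensional ℂ V)
      (Γ : Subgroup (V ≃ᵃ[ℂ] V)) (L : LineBundle Γ) (m : ℕ),
      finrank ℂ V = 5 + n * (2 * n - 1) ∧ 2 ^ n ≤ m ∧ HasIndex L m := by
  obtain ⟨V, i1, i2, i3, Γ, L, h3, h4⟩ := main_lcm (2 * n) (fun i => (i : ℕ) + 1)
    fun i => Nat.le_add_left 1 _
  refine ⟨V, i1, i2, i3, Γ, L, _, ?_, ?_, h4⟩
  · rw [h3]
    have h5 := Finset.sum_range_id_mul_two (2 * n)
    have h6 : ∑ i : Fin (2 * n), ((i : ℕ) + 1 - 1) = ∑ i ∈ Finset.range (2 * n), i := by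
      rw [← Fin.sum_univ_eq_sum_range (fun i => i)]
      exact Finset.sum_congr rfl fun i _ => Nat.add_sub_cancel _ _
    have h9 : 2 * n * (2 * n - 1) = n * (2 * n - 1) * 2 := by ring
    rw [h6, Nat.eq_of_mul_eq_mul_right two_pos (h5.trans h9)]
  · refine two_pow_le_of_dvd ?_ fun m hm hm' => ?_
    · rw [Nat.one_le_iff_ne_zero, Ne, Finset.lcm_eq_zero_iff]
      rintro ⟨i, -, h⟩
      exact absurd h (Nat.succ_ne_zero _)
    · have h7 := Finset.dvd_lcm (f := fun i : Fin (2 * n) => (i : ℕ) + 1)
        (Finset.mem_univ (⟨m - 1, by omega⟩ : Fin (2 * n)))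
      have h8 : m - 1 + 1 = m := Nat.sub_add_cancel hm
      change m - 1 + 1 ∣ _ at h7
      rwa [h8] at h7

/-- the primes which divide an index are at most `2 d + 1` -/
theorem upper {V : Type} [NormedAddCommGroup V] [NormedSpace ℂ V] [FiniteDimensional ℂ V]
    {Γ : Subgroup (V ≃ᵃ[ℂ] V)} {L : LineBundle Γ} {m : ℕ} (h : HasIndex L m) {p : ℕ}
    (hp : p.Prime) (hpm : p ∣ m) : p ≤ 2 * finrank ℂ V + 1 := by
  obtain ⟨hX, ⟨H, hc, hn, v0, w0, hne⟩, hi⟩ := h
  have hdvd : m ∣ 4 * Pool.Agent.Q42.EB.order Γ ^ 5 := by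
    by_contra hcon
    obtain ⟨s, hs, hs0⟩ := Pool.Agent.Q42.EB.effective hX.torus hX.h01 hc hn 0
    exact hs0 (congrFun ((hi _).2 hcon s hs) 0)
  have hd : finrank ℂ V ≠ 0 := by
    intro h0
    have h1 : Subsingleton V := finrank_zero_iff.1 h0
    apply hne
    have h2 := hc.1.smul_left 0 v0 w0
    rwa [zero_mul, Subsingleton.elim ((0 : ℂ) • v0) v0] at h2
  rcases hp.dvd_mul.1 (hpm.trans hdvd) with h4 | h5
  · have h6 : p ∣ 2 := hp.dvd_of_dvd_pow (show p ∣ 2 ^ 2 from h4)
    have := Nat.le_of_dvd two_pos h6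
    omega
  · exact Pool.Agent.H14.LK.prime_le hX.torus hp (hp.dvd_of_dvd_pow h5)

/-- **The exponents grow exponentially, and the indices of single line bundles like `2 ^ (c √d)`; their
prime divisors grow linearly.** -/
theorem result :
    -- (1) nef line bundles with index the least common multiple of `q_1, …, q_r`
    (∀ (r : ℕ) (q : Fin r → ℕ), (∀ i, 1 ≤ q i) →
      ∃ (V : Type) (_ : NormedAddCommGroup V) (_ : NormedSpace ℂ V) (_ : FiniteDimensional ℂ V)
        (Γ : Subgroup (V ≃ᵃ[ℂ] V)) (L : LineBundle Γ),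
        finrank ℂ V = 5 + ∑ i, (q i - 1) ∧ HasIndex L (Finset.univ.lcm q)) ∧
    -- (2) the exponents which work in all dimensions up to `d`
    (∀ d N : ℕ, Effective d N →
      (∀ m : ℕ, 1 ≤ m → m + 4 ≤ d → m ∣ N) ∧ (1 ≤ N → 2 ^ ((d - 4) / 2) ≤ N)) ∧
    -- (3) the index of a single line bundle
    (∀ n : ℕ,
      ∃ (V : Type) (_ : NormedAddCommGroup V) (_ : NormedSpace ℂ V) (_ : FiniteDimensional ℂ V)
        (Γ : Subgroup (V ≃ᵃ[ℂ] V)) (L : LineBundle Γ) (m : ℕ),
        finrank ℂ V = 5 + n * (2 * n - 1) ∧ 2 ^ n ≤ m ∧ HasIndex L m) ∧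
    -- (4) the prime divisors of the indices
    (∀ (V : Type) [NormedAddCommGroup V] [NormedSpace ℂ V] [FiniteDimensional ℂ V]
      (Γ : Subgroup (V ≃ᵃ[ℂ] V)) (L : LineBundle Γ) (m p : ℕ), HasIndex L m → p.Prime → p ∣ m →
      p ≤ 2 * finrank ℂ V + 1) :=
  ⟨main_lcm, fun _ _ h => ⟨fun _ hm hd => dvd h hm hd, fun hN => two_pow_le_of h hN⟩, large,
    fun _ _ _ _ _ _ _ _ h hp hpm => upper h hp hpm⟩

end Pool.Agent.Results.MP_5ee2d0_ag.LinearIndex
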